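import Pool.Agent.V1171.LS.SteinA2
import Pool.Agent.V1171.LS.NotB2

set_option autoImplicit false
set_option synthInstance.maxHeartbeats 400000

open Topology

namespace Pool.Agent.Results.MP_591444_an.NotHereditary

open Pool.Agent.V1171.LS

/-- A closed unital subalgebra of a locally Stein algebra need not be locally Stein: there are a
uniform Fréchet algebra `A`, which is locally Stein (with an open subset `Y` of the spectrum that
is homeomorphic to the open unit disc), and a closed unital subalgebra `B` of `A` such that no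
point of the spectrum of `B` has a compact neighbourhood, so that `B` is not locally Stein. -/
theorem result :
    ∃ (A : Type) (_ : CommRing A) (_ : Algebra ℂ A) (_ : TopologicalSpace A),
      Nontrivial A ∧ IsUniformFrechetAlgebra A ∧ IsLocallyStein A ∧
      (∃ Y : Set (Spectrum A), IsOpen Y ∧ Y.Nonempty ∧ SteinOn A Y ∧
        Nonempty (Y ≃ₜ Metric.ball (0 : ℂ) 1)) ∧
      ∃ B : Subalgebra ℂ A, IsClosed (B : Set A) ∧ ¬ IsLocallyStein B ∧
        NowhereLocallyCompact (Spectrum B) := by
  have hYne : Y.Nonempty := ⟨(hY.symm ⟨0, by simp⟩ : Y), (hY.symm ⟨0, by simp⟩ : Y).2⟩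
  refine ⟨A, inferInstance, inferInstance, inferInstance, ?_, frechet_A,
    ⟨Y, isOpen_Y, hYne, steinOn⟩, ⟨Y, isOpen_Y, hYne, steinOn, ⟨hY⟩⟩,
    B, isClosed_B, not_locallyStein_B, fun φ V hV hc => no_compact_nhds φ V hV hc⟩
  obtain ⟨φ, hφ⟩ := hYne
  refine ⟨0, 1, fun h => ?_⟩
  have h1 : φ (1 : A) = 1 := map_one φ
  rw [← h, map_zero] at h1
  exact zero_ne_one h1

end Pool.Agent.Results.MP_591444_an.NotHereditary
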